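import Pool.Agent.Y712.Final

/-!
# Moments of Bloch–Kato Selmer groups over multiquadratic fields

Let `N₀` and `n` be fixed.  Over all 2-adic representations `V` of dimension `n` of the absolute
Galois group of `ℚ`, unramified outside `N₀`, with a lattice `T` such that `T/2T` is trivial, the
numbers `2 ^ dim H¹_f(K_t, V ⊗ χ_t)` for the twists by the quadratic characters of `ℚ(√D₀(t))` over
the multiquadratic fields `K_t = ℚ(√D₁(t), …, √D_s(t))` have bounded moments, in short intervals of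
`t`, uniformly in `V`; the representation `V = V_t` may even depend on `t`.
-/

set_option autoImplicit false

open NumberField Polynomial Matrix

namespace Pool.Agent.Results.MP_009fd8_ag.SelmerMoments

/-- The absolute Galois group of `ℚ`. -/
abbrev GQ : Type := Gal(AlgebraicClosure ℚ/ℚ)

/-- `σ` lies in the inertia group of the ideal `P` of the ring of all algebraic integers. -/
def InInertia (P : Ideal (𝓞 (AlgebraicClosure ℚ))) (σ : GQ) : Prop :=
  ∀ x : 𝓞 (AlgebraicClosure ℚ), σ • x - x ∈ P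

/-- The representation `ρ` on `T = ℤ₂ⁿ` is continuous, it is trivial on `T/2T`, and it is unramified
at the maximal ideals that do not contain `N₀`. -/
def Admissible {n : ℕ} (N₀ : ℕ) (ρ : GQ →* Matrix (Fin n) (Fin n) ℤ_[2]) : Prop :=
  Continuous ρ ∧ (∀ σ i j, (2 : ℤ_[2]) ∣ (ρ σ - 1) i j) ∧
    ∀ P : Ideal (𝓞 (AlgebraicClosure ℚ)), P.IsMaximal → (N₀ : 𝓞 (AlgebraicClosure ℚ)) ∉ P →
      ∀ σ, InInertia P σ → ρ σ = 1

open Classical in
/-- The quadratic character `χ_d` of the field `ℚ(√d)`. -/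
noncomputable def quadChar (d : ℤ) (σ : GQ) : ℤ :=
  if ∀ s : AlgebraicClosure ℚ, s ^ 2 = (d : AlgebraicClosure ℚ) → σ s = s then 1 else -1

/-- The matrix of the action of `σ` on `V ⊗ χ_d`, where `V = T ⊗ ℚ₂` and `T` is the lattice on which
the Galois group acts by `ρ`. -/
noncomputable def twist {n : ℕ} (ρ : GQ →* Matrix (Fin n) (Fin n) ℤ_[2]) (d : ℤ) (σ : GQ) :
    Matrix (Fin n) (Fin n) ℚ_[2] :=
  (quadChar d σ : ℚ_[2]) • (ρ σ).map (fun x => (x : ℚ_[2]))

/-- The space of maps from the subgroup `H` of the Galois group to `ℚ₂ⁿ`. -/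
def Cochain (n : ℕ) (H : Subgroup GQ) : Type := H → Fin n → ℚ_[2]

noncomputable instance (n : ℕ) (H : Subgroup GQ) : AddCommGroup (Cochain n H) :=
  Pi.addCommGroup

noncomputable instance (n : ℕ) (H : Subgroup GQ) : Module ℚ_[2] (Cochain n H) :=
  Pi.module _ _ _

variable {n : ℕ} {N₀ : ℕ} {H : Subgroup GQ} {A : GQ → Matrix (Fin n) (Fin n) ℚ_[2]}

/-- `f` is a continuous crossed homomorphism from `H` to `ℚ₂ⁿ`, on which `σ` acts by the matrix
`A σ`, whose restriction to the inertia subgroup (in `H`) of every maximal ideal `P` of the ring of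
all algebraic integers with `2 N₀ ∉ P` is a coboundary. -/
def IsSelmerCocycle (N₀ : ℕ) (A : GQ → Matrix (Fin n) (Fin n) ℚ_[2]) (f : H → Fin n → ℚ_[2]) :
    Prop :=
  Continuous f ∧ (∀ σ τ : H, f (σ * τ) = f σ + A σ *ᵥ f τ) ∧
    ∀ P : Ideal (𝓞 (AlgebraicClosure ℚ)), P.IsMaximal →
      ((2 * N₀ : ℕ) : 𝓞 (AlgebraicClosure ℚ)) ∉ P →
      ∃ v : Fin n → ℚ_[2], ∀ σ : H, InInertia P σ → f σ = A σ *ᵥ v - v

theorem IsSelmerCocycle.zero : IsSelmerCocycle N₀ A (0 : Cochain n H) :=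
  (Pool.Agent.Y712.ZS N₀ H A).zero_mem'

theorem IsSelmerCocycle.add {f g : Cochain n H} (hf : IsSelmerCocycle N₀ A f)
    (hg : IsSelmerCocycle N₀ A g) : IsSelmerCocycle N₀ A (f + g) :=
  (Pool.Agent.Y712.ZS N₀ H A).add_mem' hf hg

theorem IsSelmerCocycle.smul (c : ℚ_[2]) {f : Cochain n H} (hf : IsSelmerCocycle N₀ A f) :
    IsSelmerCocycle N₀ A (c • f) :=
  (Pool.Agent.Y712.ZS N₀ H A).smul_mem' c hf

/-- `f` is principal. -/
def IsCoboundary (A : GQ → Matrix (Fin n) (Fin n) ℚ_[2]) (f : H → Fin n → ℚ_[2]) : Prop :=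
  ∃ v : Fin n → ℚ_[2], ∀ σ : H, f σ = A σ *ᵥ v - v

theorem IsCoboundary.zero : IsCoboundary A (0 : Cochain n H) :=
  (Pool.Agent.Y712.BS 0 H A).zero_mem'

theorem IsCoboundary.add {f g : Cochain n H} (hf : IsCoboundary A f) (hg : IsCoboundary A g) :
    IsCoboundary A (f + g) := by
  obtain ⟨v, hv⟩ := hf
  obtain ⟨w, hw⟩ := hg
  refine ⟨v + w, fun σ => ?_⟩
  have h : (f + g : Cochain n H) σ = f σ + g σ := rfl
  rw [h, hv σ, hw σ, Matrix.mulVec_add]
  abel

theorem IsCoboundary.smul (c : ℚ_[2]) {f : Cochain n H} (hf : IsCoboundary A f) :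
    IsCoboundary A (c • f) := by
  obtain ⟨v, hv⟩ := hf
  refine ⟨c • v, fun σ => ?_⟩
  have h : (c • f : Cochain n H) σ = c • f σ := rfl
  rw [h, hv σ, Matrix.mulVec_smul, smul_sub]

variable (N₀ H A)

/-- The space of the crossed homomorphisms that satisfy the local conditions. -/
def selmerCocycles : Submodule ℚ_[2] (Cochain n H) where
  carrier := {f | IsSelmerCocycle N₀ A f}
  zero_mem' := IsSelmerCocycle.zero
  add_mem' := IsSelmerCocycle.add
  smul_mem' := fun c _ => IsSelmerCocycle.smul c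

/-- The space of the principal crossed homomorphisms. -/
def coboundaries : Submodule ℚ_[2] (Cochain n H) where
  carrier := {f | IsCoboundary A f}
  zero_mem' := IsCoboundary.zero
  add_mem' := IsCoboundary.add
  smul_mem' := fun c _ => IsCoboundary.smul c

/-- The Selmer group of the field `K` with the Bloch–Kato conditions at all places of `K` that do
not lie above the primes dividing `2 N₀`, and no condition at the other places. -/
def Selmer (K : IntermediateField ℚ (AlgebraicClosure ℚ)) : Type :=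
  selmerCocycles N₀ K.fixingSubgroup A ⧸
    (coboundaries K.fixingSubgroup A).submoduleOf (selmerCocycles N₀ K.fixingSubgroup A)

noncomputable instance (K : IntermediateField ℚ (AlgebraicClosure ℚ)) :
    AddCommGroup (Selmer N₀ A K) :=
  Submodule.Quotient.addCommGroup _

noncomputable instance (K : IntermediateField ℚ (AlgebraicClosure ℚ)) :
    Module ℚ_[2] (Selmer N₀ A K) :=
  Submodule.Quotient.module _

/-- The field `ℚ(√D₁(t), …, √D_s(t))`. -/
noncomputable def multiquadratic {s : ℕ} (D : Fin s → ℤ[X]) (t : ℤ) :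
    IntermediateField ℚ (AlgebraicClosure ℚ) :=
  IntermediateField.adjoin ℚ {x | ∃ i, x ^ 2 = (((D i).eval t : ℤ) : AlgebraicClosure ℚ)}

/-- The integers `t` with `N < t ≤ N + M` and `D_i(t) ≠ 0` for all `i ≥ 0`. -/
noncomputable def parameters {s : ℕ} (D₀ : ℤ[X]) (D : Fin s → ℤ[X]) (N : ℤ) (M : ℕ) : Finset ℤ :=
  (Finset.Ioc N (N + M)).filter (fun t => D₀.eval t ≠ 0 ∧ ∀ i, (D i).eval t ≠ 0)

theorem result (n N₀ : ℕ) (hN₀ : N₀ ≠ 0) (s : ℕ) (D₀ : ℤ[X]) (hD₀ : D₀ ≠ 0)
    (D : Fin s → ℤ[X]) (hD : ∀ i, D i ≠ 0) (k L : ℕ) :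
    ∃ C : ℝ, ∀ (N : ℤ) (M : ℕ), 1 ≤ M → |N| ≤ (M : ℤ) ^ L →
      ∀ ρ : ℤ → (GQ →* Matrix (Fin n) (Fin n) ℤ_[2]), (∀ t, Admissible N₀ (ρ t)) →
        (∀ t ∈ parameters D₀ D N M, FiniteDimensional ℚ_[2]
          (Selmer N₀ (twist (ρ t) (D₀.eval t)) (multiquadratic D t))) ∧
        ∑ t ∈ parameters D₀ D N M, ((2 : ℝ) ^ Module.finrank ℚ_[2]
          (Selmer N₀ (twist (ρ t) (D₀.eval t)) (multiquadratic D t))) ^ k ≤ C * M := by
  have hgood : ∀ ρ : GQ →* Matrix (Fin n) (Fin n) ℤ_[2], Admissible N₀ ρ →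
      Pool.Agent.Y712.Good (fun σ => ρ σ) N₀ := fun ρ hρ =>
    { mul := fun σ τ => map_mul ρ σ τ
      one := map_one ρ
      cont := hρ.1
      ne := hN₀
      ur := hρ.2.2
      res := hρ.2.1 }
  have hfix : ∀ (t : ℤ) (ht : ∀ i, (D i).eval t ≠ 0), (multiquadratic D t).fixingSubgroup =
      (Pool.Agent.Y712.HJ (fun i => (D i).eval t) ht Finset.univ : Subgroup GQ) :=
    fun t ht => Pool.Agent.Y712.fix_eq (fun i => (D i).eval t) ht
  obtain ⟨C, hC⟩ := Pool.Agent.Y712.mom_multi n hN₀ D₀ hD₀ D hD k L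
  refine ⟨C, fun N M hM hN ρ hρ => ⟨fun t ht => ?_, ?_⟩⟩
  · obtain ⟨_, h0, h1⟩ := Finset.mem_filter.1 ht
    have key : ∀ (J : Subgroup GQ), J = (Pool.Agent.Y712.HJ (fun i => (D i).eval t) h1
        Finset.univ : Subgroup GQ) → FiniteDimensional ℚ_[2]
          (selmerCocycles N₀ J (twist (ρ t) (D₀.eval t)) ⧸
          (coboundaries J (twist (ρ t) (D₀.eval t))).submoduleOf
            (selmerCocycles N₀ J (twist (ρ t) (D₀.eval t)))) := by
      intro J hJ
      subst hJ
      exact (Pool.Agent.Y712.multi_bound (hgood _ (hρ t)) (fun i => (D i).eval t) h1 Finset.univ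
        (D₀.eval t) h0).1
    exact key _ (hfix t h1)
  · refine hC N M hM hN (fun t σ => ρ t σ) (fun t => hgood _ (hρ t)) (fun t => Module.finrank ℚ_[2]
      (Selmer N₀ (twist (ρ t) (D₀.eval t)) (multiquadratic D t))) fun t _ ht => ?_
    have key2 : ∀ (J : Subgroup GQ), J = (Pool.Agent.Y712.HJ (fun i => (D i).eval t) ht
        Finset.univ : Subgroup GQ) → Module.finrank ℚ_[2]
          (selmerCocycles N₀ J (twist (ρ t) (D₀.eval t)) ⧸
            (coboundaries J (twist (ρ t) (D₀.eval t))).submoduleOf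
              (selmerCocycles N₀ J (twist (ρ t) (D₀.eval t)))) =
          Module.finrank ℚ_[2] (Pool.Agent.Y712.ZS N₀ (Pool.Agent.Y712.HJ
            (fun i => (D i).eval t) ht Finset.univ) (twist (ρ t) (D₀.eval t)) ⧸
            Pool.Agent.Y712.BS N₀ (Pool.Agent.Y712.HJ (fun i => (D i).eval t) ht Finset.univ)
            (twist (ρ t) (D₀.eval t))) := by
      intro J hJ
      subst hJ
      rfl
    exact key2 _ (hfix t ht)

end Pool.Agent.Results.MP_009fd8_ag.SelmerMoments
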