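import Pool.Agent.Y712.AJ.Sel

/-!
# Abel–Jacobi maps onto Bloch–Kato Selmer groups: the varieties of dimension `2 i + 1` and `2 i + 2`

Let `C` be the Chow theory (with rational coefficients) of the smooth projective varieties over a number
field and `K = ℚ_p`. For cycles of dimension `i` on `X` consider the `p`-adic Abel–Jacobi map
`CH_i(X)^0 ⊗ ℚ_p → J X i = H¹(G, H_{2i+1}(X))`, where `H_{2i+1}(X) = H^{2c-1}(X)(c)` with `c = dim X - i`,
and the Bloch–Kato Selmer group `F X i = H¹_f(G, H_{2i+1}(X))`. We prove, for each fixed `i`:

1. it is **injective** for all `X` if and only if it is so for the `X` of dimension **`2 i + 2`**;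
2. its image **contains** the Selmer group for all `X` if and only if it does so for the `X` of dimension
   **`2 i + 1`** (the cycles of middle dimension; for them `h^{2i+1}(X)(i+1)` is polarized);
3. its image **is contained** in the Selmer group for all `X` if and only if it is so for the `X` of
   dimension `2 i + 1`;
4. it is an **isomorphism** onto the Selmer group for all `X` if and only if it is so for the `X` of
   dimension `2 i + 2`;
5. in this case it is an isomorphism onto the Selmer group for all direct factors `(X, e)` of the motives
   of all `X`, in particular for the polarized motives of weight `-1` of the problem.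

For zero-cycles: curves and surfaces; for one-cycles: threefolds and fourfolds. The hypotheses are known
theorems: finitely many cycles of dimension `i` can be moved, in the product of `X` with a projective
space, to a smooth complete intersection of dimension `2 i + 1` or `2 i + 2` (resolution of
singularities, Bertini), weak Lefschetz (`HasSections`, `HasEvenSections`), and hard Lefschetz
(`HasOddSections`: `H_{2i+1}(S) → H_{2i+1}(X)` is a split surjection of Galois representations for a linear
section `S` of dimension `2 i + 1`).
-/

set_option autoImplicit false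

open CategoryTheory AlgebraicGeometry

universe u v w w'

namespace Pool.Agent.Results.MP_009fd8_ag.SmallDimensions

open Pool.Agent.Y101.Aq Pool.Agent.H914 VarClass Obj Pool.Agent.W492.BB Pool.Agent.TH133
  Pool.Agent.Y712.Sec Pool.Agent.Y712.Sel

variable {k : Type u} [Field k] {𝒱 : VarClass k} {C : TheoryData.{u, v, 0} 𝒱 ℚ}
  {K : Type w} [Field K]

/-- `P X` holds for all `X` of dimension at least `i` if and only if it holds for all `X` of dimension
`d`. -/
def DecidedBy (i d : ℕ) (P : 𝒱.Obj → Prop) : Prop :=
  (∀ X : 𝒱.Obj, i ≤ X.dim → P X) ↔ ∀ X : 𝒱.Obj, X.dim = d → P X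

/-- The Abel–Jacobi maps are isomorphisms onto the Selmer groups for cycles of dimension `i` on all `X`
and all direct factors `(X, e)`. -/
def AllMotives [CharZero K] (H : WeilTheoryData.{u, v, w} C K) (T : SelData.{u, v, w, w'} C K)
    (i : ℕ) : Prop :=
  ∀ X : 𝒱.Obj, i ≤ X.dim → ∀ (e : C.A X →ₗ[ℚ] C.A X) (e' : T.J X i →ₗ[K] T.J X i),
    IsIdempotent H T i X e e' → MotiveIso H T i X e e'

/-- **The Abel–Jacobi maps for cycles of dimension `i` and the Bloch–Kato Selmer groups: injectivity and
the isomorphism are decided by the varieties of dimension `2 i + 2`, surjectivity and the containment by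
those of dimension `2 i + 1`.** -/
theorem result [CharZero K] [IsChowProj C] {H : WeilTheoryData.{u, v, w} C K} [IsWeilProj H]
    {T : SelData.{u, v, w, w'} C K} (hT : IsSel H T) (hE : HasEvenSections H T)
    (hS : HasSections H) (hO : HasOddSections T) (i : ℕ) :
    DecidedBy i (2 * i + 2) (AJInjective H T i) ∧
      ((∀ X, AJOnto H T i X) ↔ ∀ X : 𝒱.Obj, X.dim = 2 * i + 1 → AJOnto H T i X) ∧
      DecidedBy i (2 * i + 1) (AJInto H T i) ∧
      DecidedBy i (2 * i + 2) (AJIso H T i) ∧
      ((∀ X : 𝒱.Obj, X.dim = 2 * i + 2 → AJIso H T i X) → AllMotives H T i) := by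
  refine ⟨inj_reduction hT hE i, onto_reduction hT hO i, into_reduction hT i hS,
    iso_reduction hT hE hS hO i, ?_⟩
  intro h X hX e e' he
  exact motive_iso ((iso_reduction hT hE hS hO i).2 h X hX) he

end Pool.Agent.Results.MP_009fd8_ag.SmallDimensions
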